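import Mathlib
import Pool.Agent.Lib.MP_60e7f9_lc.Prov.Core

/-!
Functions, products, choice and collection in an arbitrary model of ZFC.
-/

set_option autoImplicit false
set_option linter.unusedSectionVars false
set_option linter.unusedVariables false
set_option synthInstance.maxSize 100000

namespace Pool.Agent.Lib.MP_60e7f9_lc.Prov

open Pool.Agent.Lib.Common.Forcing

variable {M : Type} [Mod M] {α : Type} [Env M α]

theorem sub_rfl {a : M} : a ⊆ a := fun _ h => h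

theorem sub_trans {a b c : M} (h : a ⊆ b) (h' : b ⊆ c) : a ⊆ c := fun z hz => h' z (h z hz)

theorem emp_sub (a : M) : ∅ ⊆ a := fun z hz => absurd hz (m_emp z)

@[simp] theorem op_eq {a b c d : M} : op a b = op c d ↔ a = c ∧ b = d :=
  ⟨op_inj, fun h => by rw [h.1, h.2]⟩

theorem ex_sU (a : M) : ∃ c : M, ∀ z, z ∈ c ↔ ∃ y ∈ a, z ∈ y := by
  have := Mod.ax _ ZFC.union (Mod.v0 (M := M))
  simp only [sub, allIn, ev_all, ev_ex, ev_imp, ev_mem] at this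
  obtain ⟨c, h⟩ := this a
  obtain ⟨d, hd⟩ := sep c fun z => ∃ y ∈ a, z ∈ y
  exact ⟨d, fun z => (hd z).trans ⟨fun h => h.2, fun ⟨y, h1, h2⟩ => ⟨h y h1 z h2, y, h1, h2⟩⟩⟩

/-- The union of a set. -/
noncomputable def sU (a : M) : M := (ex_sU a).choose

@[simp] theorem m_sU {a z : M} : z ∈ sU a ↔ ∃ y ∈ a, z ∈ y := (ex_sU a).choose_spec z

instance (s : α → M) [Tm s] : Tm fun a => sU (s a) :=
  .ofMem _ (by simp only [m_sU]; infer_instance)

theorem op_sU {f x y : M} (h : op x y ∈ f) : x ∈ sU (sU f) ∧ y ∈ sU (sU f) :=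
  ⟨m_sU.2 ⟨up x y, m_sU.2 ⟨_, h, by simp [op]⟩, by simp⟩,
    m_sU.2 ⟨up x y, m_sU.2 ⟨_, h, by simp [op]⟩, by simp⟩⟩

/-- The value of a function. -/
noncomputable def ap (f x : M) : M :=
  (sep (sU (sU (sU f))) fun z => ∃ y, op x y ∈ f ∧ z ∈ y).choose

theorem m_ap {f x z : M} : z ∈ ap f x ↔ ∃ y, op x y ∈ f ∧ z ∈ y :=
  ((sep (sU (sU (sU f))) fun z => ∃ y, op x y ∈ f ∧ z ∈ y).choose_spec z).trans
    ⟨fun h => h.2, fun ⟨y, h1, h2⟩ => ⟨m_sU.2 ⟨y, (op_sU h1).2, h2⟩, y, h1, h2⟩⟩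

instance (s t : α → M) [Tm s] [Tm t] : Tm fun a => ap (s a) (t a) :=
  .ofMem _ (by simp only [m_ap]; infer_instance)

/-- The first coordinate of a pair. -/
noncomputable def p1 (p : M) : M := (sep (sU (sU p)) fun z => ∃ x y, p = op x y ∧ z ∈ x).choose

/-- The second coordinate of a pair. -/
noncomputable def p2 (p : M) : M := (sep (sU (sU p)) fun z => ∃ x y, p = op x y ∧ z ∈ y).choose

theorem m_p1 {p z : M} : z ∈ p1 p ↔ ∃ x y, p = op x y ∧ z ∈ x :=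
  ((sep (sU (sU p)) fun z => ∃ x y, p = op x y ∧ z ∈ x).choose_spec z).trans
    ⟨fun h => h.2, fun ⟨x, y, h1, h2⟩ => ⟨m_sU.2 ⟨x, m_sU.2 ⟨up x y, by simp [h1, op], by simp⟩,
      h2⟩, x, y, h1, h2⟩⟩

theorem m_p2 {p z : M} : z ∈ p2 p ↔ ∃ x y, p = op x y ∧ z ∈ y :=
  ((sep (sU (sU p)) fun z => ∃ x y, p = op x y ∧ z ∈ y).choose_spec z).trans
    ⟨fun h => h.2, fun ⟨x, y, h1, h2⟩ => ⟨m_sU.2 ⟨y, m_sU.2 ⟨up x y, by simp [h1, op], by simp⟩,
      h2⟩, x, y, h1, h2⟩⟩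

instance (s : α → M) [Tm s] : Tm fun a => p1 (s a) :=
  .ofMem _ (by simp only [m_p1]; infer_instance)

instance (s : α → M) [Tm s] : Tm fun a => p2 (s a) :=
  .ofMem _ (by simp only [m_p2]; infer_instance)

@[simp] theorem p1_op (x y : M) : p1 (op x y) = x := ext' fun z => by simp [m_p1]

@[simp] theorem p2_op (x y : M) : p2 (op x y) = y := ext' fun z => by simp [m_p2]

/-- The cartesian product. -/
noncomputable def pr (A B : M) : M :=
  (sep (pw (pw (A ∪ B))) fun p => ∃ x ∈ A, ∃ y ∈ B, p = op x y).choose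

theorem m_pr {A B p : M} : p ∈ pr A B ↔ ∃ x ∈ A, ∃ y ∈ B, p = op x y :=
  ((sep (pw (pw (A ∪ B))) fun p => ∃ x ∈ A, ∃ y ∈ B, p = op x y).choose_spec p).trans
    ⟨fun h => h.2, fun ⟨x, a, y, b, e⟩ => ⟨e ▸ op_mem a b, x, a, y, b, e⟩⟩

@[simp] theorem op_pr {A B x y : M} : op x y ∈ pr A B ↔ x ∈ A ∧ y ∈ B := by simp [m_pr]

instance (s t : α → M) [Tm s] [Tm t] : Tm fun a => pr (s a) (t a) :=
  .ofMem _ (by simp only [m_pr]; infer_instance)

/-- The image of a set under a function. -/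
noncomputable def im (f a : M) : M :=
  (sep (pw (sU (sU (sU f)))) fun y => ∃ x ∈ a, y = ap f x).choose

@[simp] theorem m_im {f a y : M} : y ∈ im f a ↔ ∃ x ∈ a, y = ap f x :=
  ((sep (pw (sU (sU (sU f)))) fun y => ∃ x ∈ a, y = ap f x).choose_spec y).trans
    ⟨fun h => h.2, fun ⟨x, h1, h2⟩ => ⟨m_pw.2 fun z hz => by
      obtain ⟨u, h3, h4⟩ := m_ap.1 (h2 ▸ hz)
      exact m_sU.2 ⟨u, (op_sU h3).2, h4⟩, x, h1, h2⟩⟩

instance (s t : α → M) [Tm s] [Tm t] : Tm fun a => im (s a) (t a) :=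
  .ofMem _ (by simp only [m_im]; infer_instance)

/-- The restriction of a function. -/
noncomputable def rs (f a : M) : M := f ∩ pr a (sU (sU f))

theorem op_rs {f a x y : M} : op x y ∈ rs f a ↔ op x y ∈ f ∧ x ∈ a := by
  simp only [rs, m_inter, op_pr]
  exact ⟨fun h => ⟨h.1, h.2.1⟩, fun h => ⟨h.1, h.2, (op_sU h.1).2⟩⟩

instance (s t : α → M) [Tm s] [Tm t] : Tm fun a => rs (s a) (t a) :=
  (inferInstance : Tm fun a => s a ∩ pr (t a) (sU (sU (s a))))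

theorem ap_rs {f a x : M} (h : x ∈ a) : ap (rs f a) x = ap f x :=
  ext' fun z => by simp [m_ap, op_rs, h]

/-- `f` is a function with domain `A`. -/
def Fn (f A : M) : Prop := (∀ p ∈ f, ∃ x ∈ A, ∃ y, p = op x y) ∧ (∀ x ∈ A, ∃ y, op x y ∈ f) ∧
  ∀ x y y', op x y ∈ f → op x y' ∈ f → y = y'

instance (s t : α → M) [Tm s] [Tm t] : Df M fun a => Fn (s a) (t a) := by
  unfold Fn; infer_instance

theorem ap_eq {f x y : M} (hf : ∀ y y', op x y ∈ f → op x y' ∈ f → y = y') (h : op x y ∈ f) :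
    ap f x = y :=
  ext' fun z => m_ap.trans ⟨fun ⟨_, h1, h2⟩ => hf _ _ h1 h ▸ h2, fun hz => ⟨y, h, hz⟩⟩

theorem Fn.op_iff {f A x y : M} (h : Fn f A) : op x y ∈ f ↔ x ∈ A ∧ y = ap f x := by
  refine ⟨fun h' => ⟨?_, (ap_eq (h.2.2 x) h').symm⟩, fun ⟨h1, h2⟩ => ?_⟩
  · obtain ⟨x', h1, y', e⟩ := h.1 _ h'
    exact (op_inj e).1 ▸ h1
  · obtain ⟨y', h'⟩ := h.2.1 x h1
    rwa [h2, ap_eq (h.2.2 x) h']

theorem Fn.mem_iff {f A p : M} (h : Fn f A) : p ∈ f ↔ ∃ x ∈ A, p = op x (ap f x) := by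
  refine ⟨fun h' => ?_, fun ⟨x, h1, e⟩ => e ▸ h.op_iff.2 ⟨h1, rfl⟩⟩
  obtain ⟨x, h1, y, rfl⟩ := h.1 _ h'
  exact ⟨x, h1, by rw [(h.op_iff.1 h').2]⟩

theorem Fn.ext {f g A : M} (h : Fn f A) (h' : Fn g A) (e : ∀ x ∈ A, ap f x = ap g x) : f = g :=
  ext' fun p => by
    rw [h.mem_iff, h'.mem_iff]
    exact exists_congr fun x => and_congr_right fun hx => by rw [e x hx]

theorem Fn.rs {f A a : M} (h : Fn f A) (ha : a ⊆ A) : Fn (rs f a) a := by
  refine ⟨fun p hp => ?_, fun x hx => ⟨_, op_rs.2 ⟨h.op_iff.2 ⟨ha x hx, rfl⟩, hx⟩⟩,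
    fun x y y' h1 h2 => h.2.2 x y y' (op_rs.1 h1).1 (op_rs.1 h2).1⟩
  obtain ⟨x, h1, y, -, e⟩ := m_pr.1 (m_inter.1 hp).2
  exact ⟨x, h1, y, e⟩

theorem Fn.dom_eq {f A B : M} (h : Fn f A) (h' : Fn f B) : A = B :=
  ext' fun x => ⟨fun hx => (h'.op_iff.1 (h.op_iff.2 ⟨hx, rfl⟩)).1,
    fun hx => (h.op_iff.1 (h'.op_iff.2 ⟨hx, rfl⟩)).1⟩

/-- The set of functions from `A` to `B`. -/
noncomputable def fs (A B : M) : M :=
  (sep (pw (pr A B)) fun f => Fn f A ∧ ∀ x ∈ A, ap f x ∈ B).choose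

theorem m_fs {A B f : M} : f ∈ fs A B ↔ Fn f A ∧ ∀ x ∈ A, ap f x ∈ B :=
  ((sep (pw (pr A B)) fun f => Fn f A ∧ ∀ x ∈ A, ap f x ∈ B).choose_spec f).trans
    ⟨fun h => h.2, fun h => ⟨m_pw.2 fun p hp => by
      obtain ⟨x, h1, rfl⟩ := h.1.mem_iff.1 hp
      exact op_pr.2 ⟨h1, h.2 x h1⟩, h⟩⟩

instance (s t : α → M) [Tm s] [Tm t] : Tm fun a => fs (s a) (t a) :=
  .ofMem _ (by simp only [m_fs]; infer_instance)

theorem dfR3 (r : M → M → M → Prop)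
    [hr : Df M fun z : ((Unit × M) × M) × M => r z.1.1.2 z.1.2 z.2]
    {β : Type} [Env M β] (s t u : β → M) [hs : Tm s] [Tm t] [Tm u] :
    Df M fun a => r (s a) (t a) (u a) := by
  have h3 : Df M fun z : ((β × M) × M) × M => r z.1.1.2 z.1.2 z.2 :=
    Df.comp (h := hr) (h' := Prj.up _ (h := Prj.up _ (h := Prj.up _ (h := prjUnit)))) _ _
  exact (inferInstance : Df M fun a => ∀ x, x = s a → ∀ y, y = t a → ∀ w, w = u a →
    r x y w).congr fun a => by simp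

theorem tmR1 (G : M → M) [hG : Tm fun z : Unit × M => G z.2] {β : Type} [Env M β] (s : β → M)
    [Tm s] : Tm fun a => G (s a) :=
  ⟨dfR2 (fun x y => y = G x) (hr := hG.df) (fun z : β × M => s z.1) fun z => z.2⟩

theorem tmR2 (G : M → M → M) [hG : Tm fun z : (Unit × M) × M => G z.1.2 z.2] {β : Type}
    [Env M β] (s t : β → M) [Tm s] [Tm t] : Tm fun a => G (s a) (t a) :=
  ⟨dfR3 (fun x y w => w = G x y) (hr := hG.df) (fun z : β × M => s z.1) (fun z => t z.1)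
    fun z => z.2⟩

/-- Collection for a definable relation. -/
theorem coll (A : M) (r : M → M → Prop) [h : Df M fun z : (Unit × M) × M => r z.1.2 z.2]
    (H : ∀ x ∈ A, ∃ y, r x y) : ∃ B : M, ∀ x ∈ A, ∃ y ∈ B, r x y := by
  obtain ⟨φ, w, h⟩ := h
  have := Mod.ax _ (ZFC.coll φ) w
  simp only [allIn, exIn, ev_all, ev_ex, ev_imp, ev_and, ev_mem, at2, ev_ren] at this
  have e : ∀ (x y : M) (v : ℕ → M), (∀ i, v i = cons y (cons x w) i) → (Ev Mod.E φ v ↔ r x y) :=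
    fun x y v hv => by rw [funext hv]; exact h (((), x), y)
  obtain ⟨B, hB⟩ := this A fun x hx => by
    obtain ⟨y, hy⟩ := H x hx
    exact ⟨y, (e x y _ fun i => by rcases i with _ | _ | i <;> rfl).2 hy⟩
  refine ⟨B, fun x hx => ?_⟩
  obtain ⟨y, h1, h2⟩ := hB x hx
  exact ⟨y, h1, (e x y _ fun i => by rcases i with _ | _ | i <;> rfl).1 h2⟩

/-- Choice of a function along a definable relation. -/
theorem ch (A : M) (r : M → M → Prop) [Df M fun z : (Unit × M) × M => r z.1.2 z.2]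
    (H : ∀ x ∈ A, ∃ y, r x y) : ∃ f : M, Fn f A ∧ ∀ x ∈ A, r x (ap f x) := by
  obtain ⟨B, hB⟩ := coll A r H
  obtain ⟨G, g1, g2, g3⟩ := ac A B r hB
  refine ⟨G ∩ pr A B, ⟨fun p hp => ?_, fun x hx => ?_, fun x y y' h h' =>
    g3 x y y' (m_inter.1 h).1 (m_inter.1 h').1⟩, fun x hx => ?_⟩
  · obtain ⟨x, h1, y, -, e⟩ := m_pr.1 (m_inter.1 hp).2
    exact ⟨x, h1, y, e⟩
  · obtain ⟨y, hy⟩ := g1 x hx
    exact ⟨y, m_inter.2 ⟨hy, op_pr.2 ⟨hx, (g2 _ _ hy).2.1⟩⟩⟩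
  · obtain ⟨y, hy⟩ := g1 x hx
    rw [ap_eq (fun y y' h h' => g3 x y y' (m_inter.1 h).1 (m_inter.1 h').1)
      (m_inter.2 ⟨hy, op_pr.2 ⟨hx, (g2 _ _ hy).2.1⟩⟩)]
    exact (g2 _ _ hy).2.2

/-- A definable term gives a function. -/
theorem lam (A : M) (t : M → M) [ht : Tm fun z : Unit × M => t z.2] :
    ∃ f : M, Fn f A ∧ ∀ x ∈ A, ap f x = t x :=
  @ch M _ A (fun x y => y = t x) ht.df fun _ _ => ⟨_, rfl⟩

/-- Replacement. -/
theorem repl (A : M) (t : M → M) [ht : Tm fun z : Unit × M => t z.2] :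
    ∃ B : M, ∀ y, y ∈ B ↔ ∃ x ∈ A, y = t x := by
  obtain ⟨f, -, h⟩ := lam A t
  exact ⟨im f A, fun y => m_im.trans (exists_congr fun x => and_congr_right fun hx => by
    rw [h x hx])⟩

open Classical in
instance tmIte (p : α → Prop) (s t : α → M) [Df M p] [Tm s] [Tm t] :
    Tm fun a => if p a then s a else t a := by
  have h1 : Df M fun z : α × M => p z.1 := Df.comp p fun z : α × M => z.1
  exact ⟨(inferInstance : Df M fun z : α × M => (p z.1 → z.2 = s z.1) ∧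
    (¬ p z.1 → z.2 = t z.1)).congr fun z => by by_cases h : p z.1 <;> simp [h]⟩

end Pool.Agent.Lib.MP_60e7f9_lc.Prov
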