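import Mathlib
import Pool.Agent.Lib.Common.ZfcProv.Fun

/-!
Ordinals, transfinite induction and recursion in an arbitrary model of ZFC.
-/

set_option autoImplicit false
set_option linter.unusedSectionVars false
set_option linter.unusedVariables false
set_option synthInstance.maxSize 100000

namespace Pool.Agent.Lib.MP_60e7f9_lc.Prov

open Pool.Agent.Lib.Common.Forcing

variable {M : Type} [Mod M] {α : Type} [Env M α]

theorem found {a x : M} (h : x ∈ a) : ∃ y ∈ a, ∀ z ∈ y, z ∉ a := by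
  have := Mod.ax _ ZFC.found (Mod.v0 (M := M))
  simp only [emp, allIn, exIn, ev_all, ev_ex, ev_imp, ev_neg, ev_and, ev_mem] at this
  exact this a fun h' => h' x h

theorem mem_asymm {a b : M} (h : a ∈ b) : b ∉ a := fun h' => by
  obtain ⟨y, h1, h2⟩ := found (a := up a b) (m_up.2 (.inl rfl))
  rcases m_up.1 h1 with rfl | rfl
  · exact h2 b h' (by simp)
  · exact h2 a h (by simp)

/-- Ordinals: transitive sets of transitive sets. -/
def Od (a : M) : Prop := (∀ x ∈ a, x ⊆ a) ∧ ∀ x ∈ a, ∀ y ∈ x, y ⊆ x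

instance (s : α → M) [Tm s] : Df M fun a => Od (s a) := by
  unfold Od; infer_instance

theorem Od.sub {a x : M} (h : Od a) (hx : x ∈ a) : x ⊆ a := h.1 x hx

theorem Od.tr {a x y : M} (h : Od a) (hy : y ∈ x) (hx : x ∈ a) : y ∈ a := h.1 x hx y hy

theorem Od.mem {a x : M} (h : Od a) (hx : x ∈ a) : Od x :=
  ⟨h.2 x hx, fun y hy => h.2 y (h.tr hy hx)⟩

theorem Od.sc {a : M} (h : Od a) : Od (sc a) := by
  refine ⟨fun x hx z hz => m_sc.2 (.inl ?_), fun x hx => ?_⟩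
  · rcases m_sc.1 hx with hx | rfl
    exacts [h.tr hz hx, hz]
  · rcases m_sc.1 hx with hx | rfl
    exacts [h.2 x hx, h.1]

theorem od_sU {A : M} (h : ∀ x ∈ A, Od x) : Od (sU A) := by
  refine ⟨fun x hx z hz => ?_, fun x hx => ?_⟩
  · obtain ⟨y, h1, h2⟩ := m_sU.1 hx
    exact m_sU.2 ⟨y, h1, (h y h1).tr hz h2⟩
  · obtain ⟨y, h1, h2⟩ := m_sU.1 hx
    exact (h y h1).2 x h2

theorem od_emp : Od (∅ : M) := ⟨by simp, by simp⟩

theorem od_om : Od (om M) :=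
  ⟨fun x hx z hz => (om_tr x hx z hz).1, fun x hx y hy => (om_tr x hx y hy).2⟩

theorem sub_sc (a : M) : a ⊆ sc a := fun z hz => m_sc.2 (.inl hz)

theorem mem_sc (a : M) : a ∈ sc a := m_sc.2 (.inr rfl)

theorem od_ind (p : M → Prop) [hp : Df M fun z : Unit × M => p z.2]
    (h : ∀ a, Od a → (∀ x ∈ a, p x) → p a) : ∀ a, Od a → p a := fun a ha => by
  by_contra hc
  obtain ⟨S, hS⟩ := sep (sc a) fun x => ¬ p x
  obtain ⟨y, h1, h2⟩ := found ((hS a).2 ⟨mem_sc a, hc⟩)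
  have h3 := ((hS y).1 h1).1
  exact ((hS y).1 h1).2 (h y (ha.sc.mem h3) fun x hx => by_contra fun hx' =>
    h2 x hx ((hS x).2 ⟨ha.sc.tr hx h3, hx'⟩))

theorem od_min (p : M → Prop) [hp : Df M fun z : Unit × M => p z.2] {a : M} (ha : Od a)
    (h : p a) : ∃ b, Od b ∧ p b ∧ ∀ x ∈ b, ¬ p x := by
  by_contra hc
  exact od_ind (fun x => ¬ p x) (fun b hb h1 h2 => hc ⟨b, hb, h2, h1⟩) a ha h

theorem od_tri : ∀ a : M, Od a → ∀ b, Od b → a ∈ b ∨ a = b ∨ b ∈ a :=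
  od_ind _ fun a ha ih => od_ind (fun b => a ∈ b ∨ a = b ∨ b ∈ a) fun b hb ih' => by
    by_contra hc
    simp only [not_or] at hc
    refine hc.2.1 (ext (fun x hx => ?_) fun y hy => ?_)
    · rcases ih x hx b hb with h | rfl | h
      exacts [h, absurd hx hc.2.2, absurd (ha.tr h hx) hc.2.2]
    · rcases ih' y hy with h | rfl | h
      exacts [absurd (hb.tr h hy) hc.1, absurd hy hc.1, h]

theorem Od.mem_or_sub {a b : M} (ha : Od a) (hb : Od b) : a ∈ b ∨ b ⊆ a := by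
  rcases od_tri a ha b hb with h | rfl | h
  exacts [.inl h, .inr sub_rfl, .inr (ha.sub h)]

theorem Od.of_sub {a b : M} (ha : Od a) (hb : Od b) (h : a ⊆ b) : a ∈ b ∨ a = b := by
  rcases od_tri a ha b hb with h' | h' | h'
  exacts [.inl h', .inr h', absurd (h b h') (not_mem_self b)]

theorem Od.sub_mem {a b c : M} (ha : Od a) (hc : Od c) (h : a ⊆ b) (h' : b ∈ c) : a ∈ c :=
  (ha.of_sub (hc.mem h') h).elim (fun e => hc.tr e h') fun e => e ▸ h'

theorem Od.sc_sub {a b : M} (hb : Od b) (h : a ∈ b) : Prov.sc a ⊆ b := fun z hz =>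
  (m_sc.1 hz).elim (fun e => hb.tr e h) fun e => e ▸ h

theorem Od.union {a b : M} (ha : Od a) (hb : Od b) : a ∪ b = a ∨ a ∪ b = b := by
  rcases ha.mem_or_sub hb with h | h
  · exact .inr (ext' fun z => m_union.trans ⟨fun e => e.elim (hb.sub h z) id, .inr⟩)
  · exact .inl (ext' fun z => m_union.trans ⟨fun e => e.elim id (h z), .inl⟩)

theorem Od.union_mem {a b c : M} (hc : Od c) (ha : a ∈ c) (hb : b ∈ c) : a ∪ b ∈ c := by
  rcases (hc.mem ha).union (hc.mem hb) with e | e <;> rwa [e]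

theorem rs_rs {f a b : M} (h : b ⊆ a) (hf : Fn f a) {c : M} (hc : c ⊆ b) :
    rs (rs f b) c = rs f c :=
  ((hf.rs h).rs hc).ext (hf.rs (sub_trans hc h)) fun x hx => by
    rw [ap_rs hx, ap_rs hx, ap_rs (hc x hx)]

/-- Transfinite recursion. -/
theorem rec_tm (G : M → M → M) [hG : Tm fun z : (Unit × M) × M => G z.1.2 z.2] :
    ∀ a, Od a → ∃ F, Fn F a ∧ ∀ b ∈ a, ap F b = G b (rs F b) := by
  have i1 := @tmR2 M _ G hG
  have uq : ∀ a, Od a → ∀ f g, Fn f a → Fn g a → (∀ b ∈ a, ap f b = G b (rs f b)) →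
      (∀ b ∈ a, ap g b = G b (rs g b)) → f = g := fun a ha f g hf hg h1 h2 => by
    refine hf.ext hg fun x hx => od_ind (fun x => x ∈ a → ap f x = ap g x) (fun x _ ih hx => ?_)
      x (ha.mem hx) hx
    rw [h1 x hx, h2 x hx, (hf.rs (ha.sub hx)).ext (hg.rs (ha.sub hx)) fun y hy => by
      rw [ap_rs hy, ap_rs hy, ih y hy (ha.tr hy hx)]]
  refine od_ind _ fun a ha ih => ?_
  obtain ⟨F, h1, h2⟩ := ch a (fun b y => ∃ f, Fn f b ∧ (∀ c ∈ b, ap f c = G c (rs f c)) ∧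
    y = G b f) fun b hb => by
      obtain ⟨f, a1, a2⟩ := ih b hb
      exact ⟨_, f, a1, a2, rfl⟩
  refine ⟨F, h1, fun b hb => ?_⟩
  obtain ⟨f, a1, a2, a3⟩ := h2 b hb
  rw [a3, a1.ext (h1.rs (ha.sub hb)) fun c hc => ?_]
  obtain ⟨g, b1, b2, b3⟩ := h2 c (ha.tr hc hb)
  have hc' := (ha.mem hb).sub hc
  rw [ap_rs hc, b3, a2 c hc, uq c ((ha.mem hb).mem hc) _ _ (a1.rs hc') b1 (fun d hd => by
    rw [ap_rs hd, a2 d (hc' d hd), rs_rs hc' a1 (((ha.mem hb).mem hc).sub hd)]) b2]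

/-- Transfinite recursion with choices in a set `B`. -/
theorem rec_ch {a : M} (ha : Od a) (B : M) (r : M → M → M → Prop)
    [hr : Df M fun z : ((Unit × M) × M) × M => r z.1.1.2 z.1.2 z.2]
    (h : ∀ b ∈ a, ∀ f ∈ fs b B, ∃ y ∈ B, r b f y) :
    ∃ F ∈ fs a B, ∀ b ∈ a, r b (rs F b) (ap F b) := by
  have i1 := @dfR3 M _ r hr
  obtain ⟨c, -, c2⟩ := ch (pr a (pw (pr a B)))
    (fun p y => p2 p ∈ fs (p1 p) B → y ∈ B ∧ r (p1 p) (p2 p) y) fun p hp => by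
      obtain ⟨b, hb, f, -, rfl⟩ := m_pr.1 hp
      rw [p1_op, p2_op]
      by_cases hf : f ∈ fs b B
      · obtain ⟨y, hy⟩ := h b hb f hf
        exact ⟨y, fun _ => hy⟩
      · exact ⟨∅, fun h' => absurd h' hf⟩
  obtain ⟨F, f1, f2⟩ := rec_tm (fun b f => ap c (op b f)) a ha
  have key : ∀ b ∈ a, (∀ x ∈ b, ap F x ∈ B) → ap F b ∈ B ∧ r b (rs F b) (ap F b) :=
    fun b hb ih => by
      have h1 : rs F b ∈ fs b B :=
        m_fs.2 ⟨f1.rs (ha.sub hb), fun x hx => by rw [ap_rs hx]; exact ih x hx⟩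
      have := c2 (op b (rs F b)) (op_pr.2 ⟨hb, m_pw.2 fun p hp => by
        obtain ⟨x, hx, rfl⟩ := (m_fs.1 h1).1.mem_iff.1 hp
        exact op_pr.2 ⟨ha.tr hx hb, (m_fs.1 h1).2 x hx⟩⟩)
      rw [p1_op, p2_op, ← f2 b hb] at this
      exact this h1
  have hB : ∀ b ∈ a, ap F b ∈ B := fun b hb =>
    od_ind (fun b => b ∈ a → ap F b ∈ B)
      (fun b _ ih hb => (key b hb fun x hx => ih x hx (ha.tr hx hb)).1) b (ha.mem hb) hb
  exact ⟨F, m_fs.2 ⟨f1, hB⟩, fun b hb => (key b hb fun x hx => hB x (ha.tr hx hb)).2⟩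

theorem im_rs {f a : M} : im (rs f a) a = im f a :=
  ext' fun y => by
    simp only [m_im]
    exact exists_congr fun x => and_congr_right fun hx => by rw [ap_rs hx]

theorem om_cases : ∀ n ∈ om M, n = ∅ ∨ ∃ m ∈ om M, n = sc m :=
  om_ind _ (.inl rfl) fun n hn _ => .inr ⟨n, hn, rfl⟩

theorem sU_sc {a : M} (h : Od a) : sU (sc a) = a := ext' fun z => by
  simp only [m_sU, m_sc]
  exact ⟨fun ⟨y, h1, h2⟩ => h1.elim (h.tr h2) (· ▸ h2), fun hz => ⟨a, .inr rfl, hz⟩⟩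

open Classical in
/-- Recursion on the natural numbers. -/
theorem rec_om (x0 : M) (G : M → M → M) [hG : Tm fun z : (Unit × M) × M => G z.1.2 z.2] :
    ∃ F, Fn F (om M) ∧ ap F ∅ = x0 ∧ ∀ n ∈ om M, ap F (sc n) = G n (ap F n) := by
  have i1 := @tmR2 M _ G hG
  obtain ⟨F, f1, f2⟩ := rec_tm (fun b f : M => if b = (∅ : M) then x0 else G (sU b) (ap f (sU b)))
    (om M) od_om
  refine ⟨F, f1, by rw [f2 _ emp_om, if_pos rfl], fun n hn => ?_⟩
  rw [f2 _ (sc_om hn), if_neg (fun e : sc n = ∅ => m_emp n (e ▸ mem_sc n)), sU_sc (od_om.mem hn),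
    ap_rs (mem_sc n)]

end Pool.Agent.Lib.MP_60e7f9_lc.Prov
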