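import Mathlib
import Pool.Agent.Lib.Common.ZfcProv.Ord

/-!
Cardinals in an arbitrary model of ZFC.
-/

set_option autoImplicit false
set_option linter.unusedSectionVars false
set_option linter.unusedVariables false
set_option synthInstance.maxSize 100000

namespace Pool.Agent.Lib.MP_60e7f9_lc.Prov

open Pool.Agent.Lib.Common.Forcing

variable {M : Type} [Mod M] {α : Type} [Env M α]

/-- There is an injection of `A` into `B` in the model. -/
def Le (A B : M) : Prop :=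
  ∃ f, (∀ x ∈ A, ap f x ∈ B) ∧ ∀ x ∈ A, ∀ y ∈ A, ap f x = ap f y → x = y

instance (s t : α → M) [Tm s] [Tm t] : Df M fun a => Le (s a) (t a) := by
  unfold Le; infer_instance

theorem le_rel {A B : M} (r : M → M → Prop) [hr : Df M fun z : (Unit × M) × M => r z.1.2 z.2]
    (tot : ∀ x ∈ A, ∃ y ∈ B, r x y) (inj : ∀ x ∈ A, ∀ x' ∈ A, ∀ y, r x y → r x' y → x = x') :
    Le A B := by
  obtain ⟨f, -, h⟩ := ch A (fun x y => y ∈ B ∧ r x y) tot
  exact ⟨f, fun x hx => (h x hx).1, fun x hx y hy e => inj x hx y hy _ (h x hx).2 (e ▸ (h y hy).2)⟩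

theorem le_tm {A B : M} (t : M → M) [ht : Tm fun z : Unit × M => t z.2] (h : ∀ x ∈ A, t x ∈ B)
    (inj : ∀ x ∈ A, ∀ y ∈ A, t x = t y → x = y) : Le A B :=
  le_rel (fun x y => y = t x) (hr := ht.df) (fun x hx => ⟨_, h x hx, rfl⟩)
    fun x hx y hy z e e' => inj x hx y hy (e.symm.trans e')

theorem le_surj {A B : M} (t : M → M) [ht : Tm fun z : Unit × M => t z.2]
    (h : ∀ y ∈ B, ∃ x ∈ A, y = t x) : Le B A :=
  have := @tmR1 M _ t ht
  le_rel (fun y x => y = t x) h fun _ _ _ _ _ e e' => e.trans e'.symm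

theorem le_of_sub {A B : M} (h : A ⊆ B) : Le A B := le_tm (fun x => x) h fun _ _ _ _ e => e

theorem le_rfl' {A : M} : Le A A := le_of_sub sub_rfl

theorem Le.trans {A B C : M} (h : Le A B) (h' : Le B C) : Le A C := by
  obtain ⟨f, f1, f2⟩ := h
  obtain ⟨g, g1, g2⟩ := h'
  exact le_tm (fun x => ap g (ap f x)) (fun x hx => g1 _ (f1 x hx))
    fun x hx y hy e => f2 x hx y hy (g2 _ (f1 x hx) _ (f1 y hy) e)

theorem le_im (f a : M) : Le (im f a) a := le_surj (fun x => ap f x) fun _ h => m_im.1 h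

theorem Le.pr {A B A' B' : M} (h : Le A A') (h' : Le B B') : Le (pr A B) (pr A' B') := by
  obtain ⟨f, f1, f2⟩ := h
  obtain ⟨g, g1, g2⟩ := h'
  refine le_tm (fun p => op (ap f (p1 p)) (ap g (p2 p))) (fun p hp => ?_) fun p hp q hq e => ?_
  · obtain ⟨x, hx, y, hy, rfl⟩ := m_pr.1 hp
    simp [f1 x hx, g1 y hy]
  · obtain ⟨x, hx, y, hy, rfl⟩ := m_pr.1 hp
    obtain ⟨x', hx', y', hy', rfl⟩ := m_pr.1 hq
    simp only [p1_op, p2_op, op_eq] at e ⊢
    exact ⟨f2 x hx x' hx' e.1, g2 y hy y' hy' e.2⟩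

theorem ex_hs (A : M) : ∃ h : M, ∀ z, z ∈ h ↔ Od z ∧ Le z A := by
  let cd : M → M → Prop := fun p z => Od z ∧ ∃ f, (∀ u, u ∈ p1 p ↔ ∃ x ∈ z, u = ap f x) ∧
    ∀ x ∈ z, ∀ y ∈ z, (op (ap f x) (ap f y) ∈ p2 p ↔ x ∈ y)
  have uq : ∀ p z z', cd p z → cd p z' → z ⊆ z' := by
    rintro p z z' ⟨h0, f, h1, h2⟩ ⟨h0', f', h1', h2'⟩
    have : ∀ x, Od x → x ∈ z → ∀ x' ∈ z', ap f x = ap f' x' → x = x' :=
      od_ind _ fun x _ ih hx x' hx' e => ext (fun y hy => by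
        have hy' := h0.tr hy hx
        obtain ⟨y', a1, a2⟩ := (h1' _).1 ((h1 _).2 ⟨y, hy', rfl⟩)
        rw [ih y hy hy' y' a1 a2, ← h2' y' a1 x' hx', ← a2, ← e, h2 y hy' x hx]
        exact hy) fun y' hy' => by
        have a1 := h0'.tr hy' hx'
        obtain ⟨y, b1, b2⟩ := (h1 _).1 ((h1' _).2 ⟨y', a1, rfl⟩)
        have : y ∈ x := by rwa [← h2 y b1 x hx, ← b2, e, h2' y' a1 x' hx']
        exact ih y this b1 y' a1 b2.symm ▸ this
    intro x hx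
    obtain ⟨x', a1, a2⟩ := (h1' _).1 ((h1 _).2 ⟨x, hx, rfl⟩)
    exact this x (h0.mem hx) hx x' a1 a2 ▸ a1
  obtain ⟨B, hB⟩ := coll (pr (pw A) (pw (pr A A))) (fun p z => (∃ z', cd p z') → cd p z)
    (h := by simp only [cd]; infer_instance) fun p _ => by
      by_cases h : ∃ z', cd p z'
      · exact h.imp fun _ h _ => h
      · exact ⟨∅, fun h' => absurd h' h⟩
  obtain ⟨h, hh⟩ := sep B fun z => Od z ∧ Le z A
  refine ⟨h, fun z => (hh z).trans ⟨fun h => h.2, fun ⟨h1, f, f1, f2⟩ => ⟨?_, h1, f, f1, f2⟩⟩⟩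
  obtain ⟨R, hR⟩ := sep (pr A A) fun q => ∃ x ∈ z, ∃ y ∈ z, x ∈ y ∧ q = op (ap f x) (ap f y)
  have c : cd (op (im f z) R) z := ⟨h1, f, by simp, fun x hx y hy => by
    rw [p2_op, hR]
    refine ⟨fun ⟨_, x', a1, y', a2, a3, e⟩ => ?_, fun h => ⟨op_pr.2 ⟨f1 x hx, f1 y hy⟩,
      x, hx, y, hy, h, rfl⟩⟩
    rwa [f2 x hx x' a1 (op_inj e).1, f2 y hy y' a2 (op_inj e).2]⟩
  obtain ⟨z', a1, a2⟩ := hB (op (im f z) R) (op_pr.2 ⟨m_pw.2 fun u hu => by
    obtain ⟨x, hx, rfl⟩ := m_im.1 hu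
    exact f1 x hx, m_pw.2 fun q hq => ((hR q).1 hq).1⟩)
  exact ext (uq _ _ _ c (a2 ⟨z, c⟩)) (uq _ _ _ (a2 ⟨z, c⟩) c) ▸ a1

/-- The Hartogs number: the least ordinal that does not inject into `A`. -/
noncomputable def hs (A : M) : M := (ex_hs A).choose

theorem m_hs {A z : M} : z ∈ hs A ↔ Od z ∧ Le z A := (ex_hs A).choose_spec z

instance (s : α → M) [Tm s] : Tm fun a => hs (s a) :=
  .ofMem _ (by simp only [m_hs]; infer_instance)

theorem od_hs (A : M) : Od (hs A) :=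
  ⟨fun x hx y hy => m_hs.2 ⟨(m_hs.1 hx).1.mem hy,
    (le_of_sub ((m_hs.1 hx).1.sub hy)).trans (m_hs.1 hx).2⟩, fun x hx => (m_hs.1 hx).1.1⟩

theorem not_le_hs (A : M) : ¬ Le (hs A) A := fun h => not_mem_self _ (m_hs.2 ⟨od_hs A, h⟩)

/-- Cardinals: initial ordinals. -/
def Crd (k : M) : Prop := Od k ∧ ∀ a ∈ k, ¬ Le k a

instance (s : α → M) [Tm s] : Df M fun a => Crd (s a) := by
  unfold Crd; infer_instance

theorem crd_hs (A : M) : Crd (hs A) :=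
  ⟨od_hs A, fun a ha h => not_le_hs A (h.trans (m_hs.1 ha).2)⟩

theorem inj_of_new {F a : M} (ha : Od a) (h : ∀ b ∈ a, ap F b ∉ im (rs F b) b) :
    ∀ x ∈ a, ∀ y ∈ a, ap F x = ap F y → x = y := fun x hx y hy e => by
  rcases od_tri x (ha.mem hx) y (ha.mem hy) with h' | h' | h'
  · exact absurd (by rw [im_rs]; exact m_im.2 ⟨x, h', e.symm⟩) (h y hy)
  · exact h'
  · exact absurd (by rw [im_rs]; exact m_im.2 ⟨y, h', e⟩) (h x hx)

theorem exists_card (A : M) : ∃ k, Crd k ∧ Le A k ∧ Le k A := by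
  have : ∃ b ∈ hs A, Le A b := by
    by_contra hc
    obtain ⟨F, f1, f2⟩ := rec_ch (od_hs A) A (fun b f y => y ∉ im f b) fun b hb f _ => by
      by_contra h
      exact hc ⟨b, hb, (le_of_sub fun y hy => by_contra fun h' => h ⟨y, hy, h'⟩).trans (le_im f b)⟩
    exact not_le_hs A ⟨F, (m_fs.1 f1).2, inj_of_new (od_hs A) f2⟩
  obtain ⟨b, b1, b2⟩ := this
  obtain ⟨k, k1, k2, k3⟩ := od_min (fun k => Le A k) (m_hs.1 b1).1 b2
  exact ⟨k, ⟨k1, fun a ha h => k3 a ha (k2.trans h)⟩, k2, (le_of_sub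
    (((m_hs.1 b1).1.mem_or_sub k1).resolve_left fun h => k3 b h b2)).trans (m_hs.1 b1).2⟩

theorem le_total' (A B : M) : Le A B ∨ Le B A := by
  obtain ⟨a, a1, a2, a3⟩ := exists_card A
  obtain ⟨b, b1, b2, b3⟩ := exists_card B
  rcases a1.1.mem_or_sub b1.1 with h | h
  · exact .inl (a2.trans ((le_of_sub (b1.1.sub h)).trans b3))
  · exact .inr (b2.trans ((le_of_sub h).trans a3))

theorem Crd.not_le {k A : M} (hk : Crd k) : ¬ Le k A ↔ ∃ a ∈ k, Le A a := by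
  refine ⟨fun h => ?_, fun ⟨a, h1, h2⟩ h => hk.2 a h1 (h.trans h2)⟩
  obtain ⟨a, a1, a2, a3⟩ := exists_card A
  exact ⟨a, (a1.1.mem_or_sub hk.1).resolve_right fun h' => h ((le_of_sub h').trans a3), a2⟩

theorem le_of_not_hs {k A : M} (h : ¬ Le (hs k) A) : Le A k := by
  obtain ⟨a, a1, a2⟩ := (crd_hs k).not_le.1 h
  exact a2.trans (m_hs.1 a1).2

theorem cantor (A : M) : ¬ Le (pw A) A := by
  rintro ⟨f, f1, f2⟩
  obtain ⟨D, hD⟩ := sep A fun y => ∀ x ∈ pw A, ap f x = y → y ∉ x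
  have h1 : D ∈ pw A := m_pw.2 fun y hy => ((hD y).1 hy).1
  have h2 : ap f D ∉ D := fun h => ((hD _).1 h).2 D h1 rfl h
  exact h2 ((hD _).2 ⟨f1 D h1, fun x hx e => f2 x hx D h1 e ▸ h2⟩)

theorem not_le_sc {m : M} (hm : m ∈ om M) : ¬ Le (sc m) m := by
  rintro ⟨f, f1, f2⟩
  have h1 : TF (sc m) := fun S hS => tf_pw _ (sc_om hm) S fun B hB z hz =>
    m_pw.2 ((od_om.mem hm).sc.sub (hS B hB z hz))
  obtain ⟨a, ha, e⟩ := h1.onto (fun x y => y = ap f x)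
    (fun x hx => ⟨_, sub_sc m _ (f1 x hx), rfl⟩)
    (fun x hx y hy z e e' => f2 x hx y hy (e.symm.trans e')) (mem_sc m)
  exact not_mem_self m (e ▸ f1 a ha)

theorem crd_om : Crd (om M) :=
  ⟨od_om, fun m hm h => not_le_sc hm ((le_of_sub (od_om.sub (sc_om hm))).trans h)⟩

open Classical in
theorem le_insert {A m : M} (x : M) (h : Le A m) : Le (A ∪ up x x) (sc m) := by
  obtain ⟨f, f1, f2⟩ := h
  refine le_tm (fun y => if y ∈ A then ap f y else m) (fun y hy => ?_) fun y hy z hz e => ?_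
  · by_cases h : y ∈ A <;> simp [h, f1]
  · simp only [m_union, m_up, or_self] at hy hz
    by_cases h : y ∈ A <;> by_cases h' : z ∈ A <;> simp only [h, h', if_true, if_false] at e
    · exact f2 y h z h' e
    · exact absurd (e ▸ f1 y h) (not_mem_self m)
    · exact absurd (e ▸ f1 z h') (not_mem_self m)
    · exact (hy.resolve_left h).trans (hz.resolve_left h').symm

theorem fin_union {A : M} (hA : ∃ n ∈ om M, Le A n) :
    ∀ m ∈ om M, ∀ B, Le B m → ∃ n ∈ om M, Le (A ∪ B) n := by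
  refine om_ind _ (fun B ⟨f, f1, _⟩ => ?_) fun m _ ih B ⟨f, f1, f2⟩ => ?_
  · obtain ⟨n, h1, h2⟩ := hA
    exact ⟨n, h1, (le_of_sub fun z hz => (m_union.1 hz).elim id
      fun h => absurd (f1 z h) (m_emp _)).trans h2⟩
  · obtain ⟨B', hB'⟩ := sep B fun y => ap f y ∈ m
    obtain ⟨n, h1, h2⟩ := ih B' ⟨f, fun x hx => ((hB' x).1 hx).2,
      fun x hx y hy => f2 x ((hB' x).1 hx).1 y ((hB' y).1 hy).1⟩
    have : ∃ x, ∀ y ∈ B, ap f y = m → y = x := by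
      by_cases h : ∃ x ∈ B, ap f x = m
      · obtain ⟨x, a, b⟩ := h
        exact ⟨x, fun y hy e => f2 y hy x a (e.trans b.symm)⟩
      · exact ⟨∅, fun y hy e => absurd ⟨y, hy, e⟩ h⟩
    obtain ⟨x, hx⟩ := this
    refine ⟨_, sc_om h1, (le_of_sub fun z hz => ?_).trans (le_insert x h2)⟩
    simp only [m_union, m_up, or_self, hB'] at hz ⊢
    rcases hz with hz | hz
    · exact .inl (.inl hz)
    · exact (m_sc.1 (f1 z hz)).imp (fun h => .inr ⟨hz, h⟩) (hx z hz)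

theorem fin_pr {m : M} (hm : m ∈ om M) : ∀ n ∈ om M, ∃ l ∈ om M, Le (pr n m) l := by
  refine om_ind _ ⟨∅, emp_om, le_of_sub fun p hp => ?_⟩ fun n _ ih => ?_
  · obtain ⟨x, hx, -⟩ := m_pr.1 hp
    exact absurd hx (m_emp x)
  · obtain ⟨l, h1, h2⟩ := fin_union ih m hm (pr (up n n) m) (le_surj (fun y => op n y) fun p hp => by
      obtain ⟨x, hx, y, hy, rfl⟩ := m_pr.1 hp
      exact ⟨y, hy, by simpa using hx⟩)
    refine ⟨l, h1, (le_of_sub fun p hp => ?_).trans h2⟩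
    obtain ⟨x, hx, y, hy, rfl⟩ := m_pr.1 hp
    simpa [hy] using hx

theorem sc_ne (a : M) : sc a ≠ ∅ := fun e => m_emp a (e ▸ mem_sc a)

theorem sc_inj {a b : M} (ha : Od a) (hb : Od b) (e : sc a = sc b) : a = b := by
  rw [← sU_sc ha, e, sU_sc hb]

open Classical in
theorem le_sc {x : M} (h : om M ⊆ x) : Le (sc x) x := by
  have hx : x ∉ om M := fun h' => not_mem_self x (h x h')
  refine le_tm (fun y => if y ∈ om M then sc y else if y = x then (∅ : M) else y)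
    (fun y hy => ?_) fun y hy z hz e => ?_
  · split_ifs with h1 h2
    exacts [h _ (sc_om h1), h _ emp_om, (m_sc.1 hy).resolve_right h2]
  · beta_reduce at e
    split_ifs at e with h1 h2 h3 h4 h5 h6 h7 h8
    · exact sc_inj (od_om.mem h1) (od_om.mem h2) e
    · exact absurd e (sc_ne y)
    · exact absurd (e ▸ sc_om h1) h2
    · exact absurd e.symm (sc_ne z)
    · exact h4.trans h6.symm
    · exact absurd (e ▸ emp_om) h5
    · exact absurd (e ▸ sc_om h7) h1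
    · exact absurd (e ▸ emp_om) h1
    · exact e

theorem Crd.sc_mem {k x : M} (hk : Crd k) (h : om M ⊆ k) (hx : x ∈ k) : sc x ∈ k := by
  rcases (hk.1.mem hx).mem_or_sub od_om with h' | h'
  · exact h _ (sc_om h')
  · exact ((hk.1.mem hx).sc.of_sub hk.1 (hk.1.sc_sub hx)).resolve_right fun e =>
      hk.2 x hx (e ▸ le_sc h')

theorem sq_le : ∀ a : M, Od a → om M ⊆ a → Le (pr a a) a := by
  refine od_ind _ fun a ha ih h => ?_
  have lt : ∀ c ∈ a, Le a (pr c c) → ∃ b ∈ a, Le a b := fun c hc h' => by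
    rcases (ha.mem hc).mem_or_sub od_om with e | e
    · obtain ⟨l, h1, h2⟩ := fin_pr e c e
      exact ⟨l, h l h1, h'.trans h2⟩
    · exact ⟨c, hc, h'.trans (ih c hc e)⟩
  by_cases hk : Crd a
  · obtain ⟨F, f1, f2⟩ := rec_ch ha (pr a a) (fun b f y => (∃ u ∈ pr a a, u ∉ im f b) →
        y ∉ im f b ∧ ∀ u ∈ pr a a, u ∉ im f b → p1 y ∪ p2 y ⊆ p1 u ∪ p2 u) fun b hb f _ => by
      have mx : ∀ u ∈ pr a a, Od (p1 u ∪ p2 u) := fun u hu => by
        obtain ⟨x, hx, y, hy, rfl⟩ := m_pr.1 hu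
        rw [p1_op, p2_op]
        exact ha.mem (ha.union_mem hx hy)
      by_cases hu : ∃ u ∈ pr a a, u ∉ im f b
      · obtain ⟨u, u1, u2⟩ := hu
        obtain ⟨c, c1, ⟨y, y1, y2, rfl⟩, c3⟩ := od_min
          (fun c => ∃ u ∈ pr a a, u ∉ im f b ∧ c = p1 u ∪ p2 u) (mx u u1) ⟨u, u1, u2, rfl⟩
        exact ⟨y, y1, fun _ => ⟨y2, fun v v1 v2 => ((mx v v1).mem_or_sub c1).resolve_left
          fun h' => c3 _ h' ⟨v, v1, v2, rfl⟩⟩⟩
      · exact ⟨op ∅ ∅, op_pr.2 ⟨h _ emp_om, h _ emp_om⟩, fun h' => absurd h' hu⟩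
    refine (le_of_sub fun p hp => by_contra fun hc => ?_).trans (le_im F a)
    have h1 : ∀ b ∈ a, p ∉ im (rs F b) b := fun b hb h' => by
      rw [im_rs] at h'
      obtain ⟨x, hx, e⟩ := m_im.1 h'
      exact hc (m_im.2 ⟨x, ha.tr hx hb, e⟩)
    obtain ⟨x, hx, y, hy, rfl⟩ := m_pr.1 hp
    have hxy := ha.union_mem hx hy
    obtain ⟨b, b1, b2⟩ := lt _ (hk.sc_mem h hxy) ⟨F, fun b hb => by
      have h2 := (f2 b hb ⟨_, hp, h1 b hb⟩).2 _ hp (h1 b hb)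
      obtain ⟨u, hu, v, hv, e⟩ := m_pr.1 ((m_fs.1 f1).2 b hb)
      rw [e] at h2 ⊢
      simp only [p1_op, p2_op] at h2
      exact op_pr.2 ⟨(ha.mem hu).sub_mem (ha.mem hxy).sc (fun z hz => h2 z (by simp [hz]))
        (mem_sc _), (ha.mem hv).sub_mem (ha.mem hxy).sc (fun z hz => h2 z (by simp [hz]))
        (mem_sc _)⟩, inj_of_new ha fun b hb => (f2 b hb ⟨_, hp, h1 b hb⟩).1⟩
    exact hk.2 b b1 b2
  · obtain ⟨b, b1, b2⟩ : ∃ b ∈ a, Le a b := by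
      by_contra hc
      exact hk ⟨ha, fun b hb h' => hc ⟨b, hb, h'⟩⟩
    have : om M ⊆ b := ((ha.mem b1).mem_or_sub od_om).resolve_left fun h' =>
      crd_om.2 b h' ((le_of_sub h).trans b2)
    exact (b2.pr b2).trans ((ih b b1 this).trans (le_of_sub (ha.sub b1)))

theorem pr_le {A B k : M} (hk : Od k) (h : om M ⊆ k) (hA : Le A k) (hB : Le B k) :
    Le (pr A B) k := (hA.pr hB).trans (sq_le k hk h)

theorem sU_le {S k : M} (hk : Od k) (h : om M ⊆ k) (hS : Le S k) (h' : ∀ x ∈ S, Le x k) :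
    Le (sU S) k := by
  obtain ⟨e, -, he⟩ := ch S (fun x f => (∀ z ∈ x, ap f z ∈ k) ∧
    ∀ z ∈ x, ∀ y ∈ x, ap f z = ap f y → z = y) h'
  refine (le_rel (fun z p => ∃ x ∈ S, z ∈ x ∧ p = op x (ap (ap e x) z)) (fun z hz => ?_)
    ?_).trans (pr_le hk h hS le_rfl')
  · obtain ⟨x, h1, h2⟩ := m_sU.1 hz
    exact ⟨_, op_pr.2 ⟨h1, (he x h1).1 z h2⟩, x, h1, h2, rfl⟩
  · rintro z - z' - _ ⟨x, h1, h2, rfl⟩ ⟨x', h1', h2', e'⟩
    obtain ⟨rfl, e''⟩ := op_inj e'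
    exact (he x h1).2 z h2 z' h2' e''

theorem up_le (a b : M) : Le (up a b) (om M) := by
  have h0 : Le (∅ : M) ∅ := le_rfl'
  exact (le_of_sub fun z hz => by simpa using hz).trans
    ((le_insert b (le_insert a h0)).trans (le_of_sub (od_om.sub (sc_om (sc_om emp_om)))))

theorem union_le {A B k : M} (hk : Od k) (h : om M ⊆ k) (hA : Le A k) (hB : Le B k) :
    Le (A ∪ B) k :=
  (le_of_sub fun z hz => by simpa using hz).trans (sU_le hk h
    ((up_le A B).trans (le_of_sub h)) fun x hx => by rcases m_up.1 hx with rfl | rfl <;> assumption)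

theorem mem_hs {k : M} (hk : Od k) : k ∈ hs k := m_hs.2 ⟨hk, le_rfl'⟩

theorem om_hs {k : M} (hk : Od k) (h : om M ⊆ k) : om M ⊆ hs k :=
  sub_trans h ((od_hs k).sub (mem_hs hk))

theorem sU_hs {S k : M} (hk : Od k) (h : om M ⊆ k) (hS : Le S k) (h' : S ⊆ hs k) :
    sU S ∈ hs k :=
  m_hs.2 ⟨od_sU fun x hx => (m_hs.1 (h' x hx)).1, sU_le hk h hS fun x hx => (m_hs.1 (h' x hx)).2⟩

theorem sc_hs {x k : M} (hk : Od k) (h : om M ⊆ k) (hx : x ∈ hs k) : sc x ∈ hs k :=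
  (crd_hs k).sc_mem (om_hs hk h) hx

end Pool.Agent.Lib.MP_60e7f9_lc.Prov
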