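import Mathlib
import Pool.Agent.Lib.MP_60e7f9_lc.Prov.Defs

/-!
Formulas of set theory for ordinals, cardinals and functions.
-/

set_option autoImplicit false

namespace Pool.Agent.Lib.MP_60e7f9_lc.Prov

/-- `a` is an ordinal: a transitive set of transitive sets. -/
def ord (a : ℕ) : F := and (allIn a fun x => sub x a) (allIn a fun x => allIn x fun y => sub y x)

/-- `|A| ≤ |B|` -/
def le (A B : ℕ) : F := leq (mem · A) (mem · B)

/-- `k` is a cardinal: an ordinal that does not inject into a smaller ordinal. -/
def crd (k : ℕ) : F := and (ord k) (allIn k fun a => neg (le k a))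

/-- `k` is an infinite cardinal. -/
def icrd (k : ℕ) : F := and (crd k) (all fun n => imp (nat n) (mem n k))

/-- `f` is a function with domain `A`. -/
def fn (f A : ℕ) : F :=
  and (allIn f fun p => exIn A fun x => ex fun y => opr p x y)
    (and (allIn A fun x => ex fun y => app f x y)
      (all fun x => all fun y => all fun y' => imp (app f x y) (imp (app f x y') (eq y y'))))

end Pool.Agent.Lib.MP_60e7f9_lc.Prov
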