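import Mathlib
import Pool.Agent.Lib.Common.ZfcProv.Card
import Pool.Agent.Lib.Common.ZfcProv.Defs
import Pool.Agent.Lib.MP_60e7f9_lc.Prov.Bridge
import Pool.Agent.Lib.MP_60e7f9_lc.Prov.Sanity

/-!
The meaning of the formulas in a model, and the domain of a relation.
-/

set_option autoImplicit false
set_option linter.unusedSectionVars false
set_option linter.unusedVariables false
set_option synthInstance.maxSize 100000

namespace Pool.Agent.Lib.MP_60e7f9_lc.Prov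

open Pool.Agent.Lib.Common.Forcing

variable {M : Type} [Mod M] {α : Type} [Env M α]

theorem s_le {A B : M} : (∃ g : M, (∀ a, a ∈ A → ∃ b, b ∈ B ∧ op a b ∈ g) ∧
    ∀ a b a' b', op a b ∈ g → op a' b' ∈ g → (a = a' ↔ b = b')) ↔ Le A B := by
  constructor
  · rintro ⟨g, g1, g2⟩
    exact le_rel (fun a b => op a b ∈ g) g1 fun a _ a' _ b h h' => (g2 _ _ _ _ h h').2 rfl
  · rintro ⟨f, f1, f2⟩
    obtain ⟨g, g1, g2⟩ := lam A fun x => ap f x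
    refine ⟨g, fun a ha => ⟨_, f1 a ha, g1.op_iff.2 ⟨ha, (g2 a ha).symm⟩⟩, fun a b a' b' h h' => ?_⟩
    obtain ⟨h1, rfl⟩ := g1.op_iff.1 h
    obtain ⟨h2, rfl⟩ := g1.op_iff.1 h'
    exact ⟨fun e => by rw [e], fun e => f2 a h1 a' h2 (by rwa [g2 a h1, g2 a' h2] at e)⟩

theorem s_od {a : M} : ((∀ x, x ∈ a → x ⊆ a) ∧ ∀ x, x ∈ a → ∀ y, y ∈ x → y ⊆ x) ↔ Od a := Iff.rfl

theorem s_crd {k : M} : (Od k ∧ ∀ a, a ∈ k → ¬ Le k a) ↔ Crd k := Iff.rfl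

theorem s_fn {f A : M} : ((∀ p, p ∈ f → ∃ x, x ∈ A ∧ ∃ y, p = op x y) ∧
    (∀ x, x ∈ A → ∃ y, op x y ∈ f) ∧ ∀ x y y', op x y ∈ f → op x y' ∈ f → y = y') ↔ Fn f A :=
  Iff.rfl

/-- The domain of a relation. -/
noncomputable def dm (f : M) : M := (sep (sU (sU f)) fun x => ∃ y, op x y ∈ f).choose

theorem m_dm {f x : M} : x ∈ dm f ↔ ∃ y, op x y ∈ f :=
  ((sep (sU (sU f)) fun x => ∃ y, op x y ∈ f).choose_spec x).trans
    ⟨fun h => h.2, fun ⟨y, h⟩ => ⟨(op_sU h).1, y, h⟩⟩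

instance (s : α → M) [Tm s] : Tm fun a => dm (s a) :=
  .ofMem _ (by simp only [m_dm]; infer_instance)

theorem Fn.dm {f A : M} (h : Fn f A) : dm f = A :=
  ext' fun x => m_dm.trans ⟨fun ⟨_, h'⟩ => (h.op_iff.1 h').1, h.2.1 x⟩

theorem dm_mono {f g : M} (h : f ⊆ g) : dm f ⊆ dm g := fun x hx =>
  m_dm.2 ((m_dm.1 hx).imp fun _ => h _)

theorem succ_eq {k l : M} (h1 : Crd l) (h2 : k ∈ l) (h3 : ∀ a ∈ l, Crd a → a ⊆ k) :
    l = hs k := by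
  rcases od_tri l h1.1 _ (od_hs k) with h | h | h
  · exact absurd (m_hs.1 h).2 (h1.2 k h2)
  · exact h
  · exact absurd (h3 _ h (crd_hs k) k (mem_hs (h1.1.mem h2))) (not_mem_self k)

/-- The sequence of iterated successors. -/
theorem exists_seq {k : M} (hk : Od k) (h : om M ⊆ k) : ∃ c, Fn c (om M) ∧ ap c ∅ = k ∧
    (∀ n ∈ om M, ap c (sc n) = hs (ap c n)) ∧ (∀ n ∈ om M, Od (ap c n) ∧ k ⊆ ap c n) ∧
      ∀ n ∈ om M, ∀ m ∈ n, hs (ap c m) ⊆ ap c n := by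
  obtain ⟨c, c1, c2, c3⟩ := rec_om k fun _ x => hs x
  have c4 : ∀ n ∈ om M, Od (ap c n) ∧ k ⊆ ap c n :=
    om_ind _ (c2.symm ▸ ⟨hk, sub_rfl⟩) fun n hn ih => by
      rw [c3 n hn]
      exact ⟨od_hs _, sub_trans ih.2 ((od_hs _).sub (mem_hs ih.1))⟩
  refine ⟨c, c1, c2, c3, c4, om_ind _ (by simp) fun n hn ih m hm => ?_⟩
  rw [c3 n hn]
  rcases m_sc.1 hm with hm | rfl
  · exact sub_trans (ih m hm) ((od_hs _).sub (mem_hs (c4 n hn).1))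
  · exact sub_rfl

theorem not_prf_neg {p : F} (h : Prf [] (p 0)) : ¬ Prf [] (neg p 0) := fun h' =>
  not_prf_bot (.impE h' h)

end Pool.Agent.Lib.MP_60e7f9_lc.Prov
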